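import Mathlib

/-!
# Two-generated groups: a criterion through finite `p`-quotients
-/

set_option autoImplicit false

namespace Pool.Agent.helper9.TG

open Subgroup
open scoped commutatorElement

/-- a subgroup `L` of a finite `p`-group which together with a normal subgroup containing only
products of `p`-th powers and commutators generates everything is everything -/
theorem pgroup_frattini {P : Type*} [Group P] [Finite P] {p : ℕ} [Fact p.Prime] (hP : IsPGroup p P)
    (L : Subgroup P) (D : Subgroup P) (hD : ∀ C : Subgroup P, C.Normal → (∀ x : P, x ^ p ∈ C) →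
      (∀ x y : P, ⁅x, y⁆ ∈ C) → D ≤ C) (h : L ⊔ D = ⊤) : L = ⊤ := by
  by_contra hL
  obtain ⟨C, hC, hLC⟩ := (eq_top_or_exists_le_coatom L).resolve_left hL
  have hnil : Group.IsNilpotent P := hP.isNilpotent
  have hCn : C.Normal := NormalizerCondition.normal_of_coatom C
    (Group.normalizerCondition_of_isNilpotent) hC
  have hQ : IsPGroup p (P ⧸ C) := hP.to_quotient C
  -- the quotient has no proper nontrivial subgroups
  have hsimple : ∀ K : Subgroup (P ⧸ C), K ≠ ⊥ → K = ⊤ := by
    intro K hK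
    have h1 : C ≤ K.comap (QuotientGroup.mk' C) := by
      intro x hx
      rw [mem_comap, QuotientGroup.mk'_apply, (QuotientGroup.eq_one_iff x).2 hx]
      exact K.one_mem
    rcases hC.le_iff.1 h1 with h2 | h2
    · rw [← (Subgroup.comap_injective (QuotientGroup.mk'_surjective C)).eq_iff, h2, comap_top]
    · exfalso
      apply hK
      rw [eq_bot_iff]
      intro q hq
      obtain ⟨x, rfl⟩ := QuotientGroup.mk'_surjective C q
      have h3 : x ∈ K.comap (QuotientGroup.mk' C) := hq
      rw [h2] at h3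
      rw [mem_bot, QuotientGroup.mk'_apply, QuotientGroup.eq_one_iff]
      exact h3
  have hnt : Nontrivial (P ⧸ C) := by
    rw [QuotientGroup.nontrivial_iff]
    exact hC.1
  have hcen : center (P ⧸ C) = ⊤ := hsimple _ hQ.bot_lt_center.ne'
  have hcomm : ∀ x y : P ⧸ C, x * y = y * x := by
    intro x y
    have : y ∈ center (P ⧸ C) := hcen ▸ mem_top y
    exact mem_center_iff.1 this x
  let _ : CommGroup (P ⧸ C) := { (inferInstance : Group (P ⧸ C)) with mul_comm := hcomm }
  have hker : (powMonoidHom p : (P ⧸ C) →* (P ⧸ C)).ker = ⊤ := by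
    apply hsimple
    intro hbot
    obtain ⟨x, hx⟩ := exists_prime_orderOf_dvd_card' (G := P ⧸ C) p (by
      obtain ⟨k, hk⟩ := IsPGroup.iff_card.1 hQ
      rw [hk]
      apply dvd_pow_self
      rintro rfl
      rw [pow_zero] at hk
      exact not_nontrivial_iff_subsingleton.2 (Nat.card_eq_one_iff_unique.1 hk).1 hnt)
    have h1 : x ∈ (powMonoidHom p : (P ⧸ C) →* (P ⧸ C)).ker := by
      rw [MonoidHom.mem_ker, powMonoidHom_apply, ← hx, pow_orderOf_eq_one]
    rw [hbot, mem_bot] at h1
    rw [h1, orderOf_one] at hx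
    exact (Fact.out : p.Prime).one_lt.ne hx
  have hDC : D ≤ C := by
    apply hD C hCn
    · intro x
      have h1 : (x : P ⧸ C) ∈ (powMonoidHom p : (P ⧸ C) →* (P ⧸ C)).ker := hker ▸ mem_top _
      rw [MonoidHom.mem_ker, powMonoidHom_apply, ← QuotientGroup.mk_pow,
        QuotientGroup.eq_one_iff] at h1
      exact h1
    · intro x y
      rw [← QuotientGroup.eq_one_iff]
      have h1 : ((⁅x, y⁆ : P) : P ⧸ C) = ⁅(x : P ⧸ C), (y : P ⧸ C)⁆ := rfl
      rw [h1, commutatorElement_eq_one_iff_mul_comm]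
      exact hcomm _ _
  have : (⊤ : Subgroup P) ≤ C := h ▸ sup_le hLC hDC
  exact hC.1 (top_le_iff.1 this)

/-- `p`-th powers and commutators of the normal subgroup `N` -/
def Phi {G : Type*} [Group G] (N : Subgroup G) (p : ℕ) : Subgroup G :=
  ⁅N, N⁆ ⊔ closure {y | ∃ x ∈ N, y = x ^ p}

theorem Phi_normal {G : Type*} [Group G] (N : Subgroup G) [N.Normal] (p : ℕ) : (Phi N p).Normal := by
  have h : closure {y | ∃ x ∈ N, y = x ^ p} = normalClosure {y | ∃ x ∈ N, y = x ^ p} := by
    apply le_antisymm closure_le_normalClosure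
    rw [normalClosure, closure_le]
    intro z hz
    rw [Group.mem_conjugatesOfSet_iff] at hz
    obtain ⟨y, ⟨x, hx, rfl⟩, hyz⟩ := hz
    obtain ⟨c, rfl⟩ := isConj_iff.1 hyz
    apply Subgroup.subset_closure
    exact ⟨c * x * c⁻¹, (inferInstance : N.Normal).conj_mem x hx c, by rw [conj_pow]⟩
  unfold Phi
  rw [h]
  infer_instance

theorem Phi_le {G : Type*} [Group G] (N : Subgroup G) [N.Normal] (p : ℕ) : Phi N p ≤ N := by
  unfold Phi
  apply sup_le
  · exact commutator_le_self N
  · rw [closure_le]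
    rintro y ⟨x, hx, rfl⟩
    exact N.pow_mem hx p

theorem Phi_finiteIndex {G : Type*} [Group G] [Group.FG G] (N : Subgroup G) [N.Normal]
    [N.FiniteIndex] {p : ℕ} (hp : 0 < p) : (Phi N p).FiniteIndex := by
  have hn : (Phi N p).Normal := Phi_normal N p
  have hle := Phi_le N p
  have hfg : Group.FG N := N.fg_of_index_ne_zero
  set K := (Phi N p).subgroupOf N with hK
  have hKn : K.Normal := by rw [hK]; infer_instance
  have hcomm : ∀ x y : N ⧸ K, x * y = y * x := by
    intro x y
    obtain ⟨x, rfl⟩ := QuotientGroup.mk_surjective x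
    obtain ⟨y, rfl⟩ := QuotientGroup.mk_surjective y
    rw [← QuotientGroup.mk_mul, ← QuotientGroup.mk_mul, eq_comm, QuotientGroup.eq, hK,
      mem_subgroupOf]
    have h1 : (((y * x)⁻¹ * (x * y) : N) : G) = ⁅(x : G)⁻¹, (y : G)⁻¹⁆ := by
      push_cast
      rw [commutatorElement_def]
      group
    rw [h1]
    exact (le_sup_left : ⁅N, N⁆ ≤ _) (commutator_mem_commutator (N.inv_mem x.2) (N.inv_mem y.2))
  let _ : CommGroup (N ⧸ K) := { (inferInstance : Group (N ⧸ K)) with mul_comm := hcomm }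
  have hfgQ : Group.FG (N ⧸ K) := QuotientGroup.fg K
  have hfin : Finite (N ⧸ K) := by
    apply CommGroup.finite_of_fg_isMulTorsion
    intro x
    obtain ⟨x, rfl⟩ := QuotientGroup.mk_surjective x
    rw [isOfFinOrder_iff_pow_eq_one]
    refine ⟨p, hp, ?_⟩
    rw [← QuotientGroup.mk_pow, QuotientGroup.eq_one_iff, hK, mem_subgroupOf]
    exact (le_sup_right : closure {y | ∃ x ∈ N, y = x ^ p} ≤ _)
      (Subgroup.subset_closure ⟨x, x.2, by push_cast; rfl⟩)
  have hKfi : K.FiniteIndex := finiteIndex_of_finite_quotient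
  have h2 : (Phi N p).relIndex N ≠ 0 := hKfi.index_ne_zero
  constructor
  rw [← relIndex_mul_index hle]
  exact mul_ne_zero h2 FiniteIndex.index_ne_zero

/-- the product of `H` and `Phi N p` is everything, so `H ∩ N` maps onto all finite `p`-quotients
of `N` -/
theorem sup_eq_top {G : Type*} [Group G] (N : Subgroup G) [N.Normal] {p : ℕ} [Fact p.Prime]
    (H : Subgroup G) (hH : H ⊔ Phi N p = ⊤) (U : Subgroup N) [U.Normal] {k : ℕ}
    (hU : U.index = p ^ k) : H.subgroupOf N ⊔ U = ⊤ := by
  have hp : p.Prime := Fact.out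
  have hUfi : U.FiniteIndex := ⟨by rw [hU]; exact pow_ne_zero _ hp.ne_zero⟩
  have hfin : Finite (N ⧸ U) := finite_quotient_of_finiteIndex
  have hPn : (Phi N p).Normal := Phi_normal N p
  have hle := Phi_le N p
  have hP : IsPGroup p (N ⧸ U) := IsPGroup.of_card (n := k) (by rw [← hU]; rfl)
  -- every element of `N` is a product of an element of `H ∩ N` and one of `Phi N p`
  have hdec : H.subgroupOf N ⊔ (Phi N p).subgroupOf N = ⊤ := by
    rw [eq_top_iff]
    intro x _
    have h1 : (x : G) ∈ H ⊔ Phi N p := hH ▸ mem_top _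
    obtain ⟨h, hh, m, hm, hx⟩ := mem_sup_of_normal_right.1 h1
    have hhN : h ∈ N := by
      have : h = (x : G) * m⁻¹ := by rw [← hx]; group
      rw [this]
      exact N.mul_mem x.2 (N.inv_mem (hle hm))
    have h2 : x = (⟨h, hhN⟩ : N) * ⟨m, hle hm⟩ := by
      ext; exact hx.symm
    rw [h2]
    apply mul_mem
    · exact mem_sup_left (show (⟨h, hhN⟩ : N) ∈ H.subgroupOf N from hh)
    · exact mem_sup_right (show (⟨m, hle hm⟩ : N) ∈ (Phi N p).subgroupOf N from hm)
  have key := pgroup_frattini hP ((H.subgroupOf N).map (QuotientGroup.mk' U))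
    (((Phi N p).subgroupOf N).map (QuotientGroup.mk' U)) (by
      intro C hC h1 h2
      rw [map_le_iff_le_comap]
      -- it is enough to work with the normal subgroup of `N`
      set E := C.comap (QuotientGroup.mk' U) with hE
      have hEn : E.Normal := by rw [hE]; infer_instance
      have hx1 : ∀ x : N, x ^ p ∈ E := by
        intro x
        rw [hE, mem_comap, map_pow]
        exact h1 _
      have hx2 : ∀ x y : N, ⁅x, y⁆ ∈ E := by
        intro x y
        rw [hE, mem_comap, map_commutatorElement]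
        exact h2 _ _
      have hmain : Phi N p ≤ E.map N.subtype := by
        unfold Phi
        apply sup_le
        · rw [commutator_le]
          intro x hx y hy
          exact ⟨⁅⟨x, hx⟩, ⟨y, hy⟩⁆, hx2 _ _, rfl⟩
        · rw [closure_le]
          rintro y ⟨x, hx, rfl⟩
          exact ⟨⟨x, hx⟩ ^ p, hx1 _, rfl⟩
      intro z hz
      obtain ⟨z', hz', hzz⟩ := hmain (mem_subgroupOf.1 hz)
      have : z' = z := Subtype.ext hzz
      exact this ▸ hz') (by
      rw [← Subgroup.map_sup, hdec]
      exact map_top_of_surjective _ (QuotientGroup.mk'_surjective U))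
  rw [eq_top_iff]
  intro x _
  have h1 : (x : N ⧸ U) ∈ (H.subgroupOf N).map (QuotientGroup.mk' U) := key ▸ mem_top _
  obtain ⟨y, hy, hyx⟩ := h1
  rw [QuotientGroup.mk'_apply, QuotientGroup.eq] at hyx
  have h2 : x = y * (y⁻¹ * x) := by group
  rw [h2]
  exact mul_mem (mem_sup_left hy) (mem_sup_right hyx)

/-- `G` has a subgroup of finite index with finite `p`-quotients of unbounded order -/
def PLarge (G : Type*) [Group G] : Prop :=
  ∃ (p : ℕ) (N : Subgroup G), p.Prime ∧ N.FiniteIndex ∧ ∀ m : ℕ, ∃ U : Subgroup N, U.Normal ∧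
    ∃ k : ℕ, U.index = p ^ k ∧ m ≤ p ^ k

theorem PLarge.normal {G : Type*} [Group G] (h : PLarge G) :
    ∃ (p : ℕ) (N : Subgroup G), p.Prime ∧ N.Normal ∧ N.FiniteIndex ∧
      ∀ m : ℕ, ∃ U : Subgroup N, U.Normal ∧ ∃ k : ℕ, U.index = p ^ k ∧ m ≤ p ^ k := by
  obtain ⟨p, N, hp, hN, hU⟩ := h
  refine ⟨p, N.normalCore, hp, inferInstance, inferInstance, fun m => ?_⟩
  have hle : N.normalCore ≤ N := normalCore_le N
  obtain ⟨U, hUn, k, hk, hm⟩ := hU (m * (N.normalCore.subgroupOf N).index)
  -- the restriction of `U`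
  set f : N.normalCore →* N ⧸ U := (QuotientGroup.mk' U).comp (inclusion hle) with hf
  have hUfi : U.FiniteIndex := ⟨by rw [hk]; exact pow_ne_zero _ hp.ne_zero⟩
  have hfin : Finite (N ⧸ U) := finite_quotient_of_finiteIndex
  have hcard : Nat.card (N ⧸ U) = p ^ k := hk
  have h1 : Nat.card f.range ∣ p ^ k := hcard ▸ Subgroup.card_subgroup_dvd_card _
  obtain ⟨j, _, hj⟩ := (Nat.dvd_prime_pow hp).1 h1
  refine ⟨f.ker, inferInstance, j, by rw [Subgroup.index_ker]; exact hj, ?_⟩
  have h2 : f.range = (N.normalCore.subgroupOf N).map (QuotientGroup.mk' U) := by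
    ext q
    simp only [hf, MonoidHom.mem_range, MonoidHom.comp_apply, Subgroup.mem_map, mem_subgroupOf]
    constructor
    · rintro ⟨x, rfl⟩
      exact ⟨inclusion hle x, x.2, rfl⟩
    · rintro ⟨x, hx, rfl⟩
      exact ⟨⟨x, hx⟩, rfl⟩
  have h3 : f.range.index ∣ (N.normalCore.subgroupOf N).index := by
    rw [h2]
    exact Subgroup.index_map_dvd _ (QuotientGroup.mk'_surjective U)
  have h4 : (N.normalCore.subgroupOf N).index ≠ 0 :=
    (inferInstance : (N.normalCore.subgroupOf N).FiniteIndex).index_ne_zero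
  have h5 : f.range.index ≤ (N.normalCore.subgroupOf N).index :=
    Nat.le_of_dvd (Nat.pos_of_ne_zero h4) h3
  have h6 : Nat.card f.range * f.range.index = p ^ k := by
    rw [Subgroup.card_mul_index, hcard]
  rw [← hj]
  have h7 : m * (N.normalCore.subgroupOf N).index ≤
      Nat.card f.range * (N.normalCore.subgroupOf N).index := by
    calc m * (N.normalCore.subgroupOf N).index ≤ p ^ k := hm
      _ = Nat.card f.range * f.range.index := h6.symm
      _ ≤ _ := Nat.mul_le_mul_left _ h5
  exact Nat.le_of_mul_le_mul_right h7 (Nat.pos_of_ne_zero h4)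

/-- the criterion -/
theorem infinite_of_pLarge {G : Type*} [Group G] (a b : G) (hgen : closure ({a, b} : Set G) = ⊤)
    (h : PLarge G) : ∃ M : Subgroup G, M.Normal ∧ M.FiniteIndex ∧ ∀ g ∈ M,
      (closure ({a, g⁻¹ * b * g} : Set G) : Set G).Infinite := by
  obtain ⟨p, N, hp, hNn, hNf, hU⟩ := h.normal
  have hpf : Fact p.Prime := ⟨hp⟩
  have hfg : Group.FG G := by
    classical
    exact ⟨⟨{a, b}, by simpa using hgen⟩⟩
  refine ⟨Phi N p, Phi_normal N p, Phi_finiteIndex N hp.pos, fun g hg => ?_⟩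
  set H := closure ({a, g⁻¹ * b * g} : Set G) with hH
  have htop : H ⊔ Phi N p = ⊤ := by
    rw [eq_top_iff, ← hgen, closure_le]
    rintro x (rfl | rfl)
    · exact mem_sup_left (Subgroup.subset_closure (by simp))
    · have h1 : x = g * (g⁻¹ * x * g) * g⁻¹ := by group
      rw [h1]
      apply mul_mem
      · apply mul_mem (mem_sup_right hg)
        exact mem_sup_left (Subgroup.subset_closure (by simp))
      · exact inv_mem (mem_sup_right hg)
  intro hfin
  have hHf : Finite H := hfin
  obtain ⟨U, hUn, k, hk, hm⟩ := hU (Nat.card H + 1)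
  have h1 := sup_eq_top N H htop U hk
  have hUfi : U.FiniteIndex := ⟨by rw [hk]; exact pow_ne_zero _ hp.ne_zero⟩
  -- `H ∩ N` maps onto `N / U`
  have hsurj : Function.Surjective ((QuotientGroup.mk' U).comp (H.subgroupOf N).subtype) := by
    intro q
    obtain ⟨x, rfl⟩ := QuotientGroup.mk'_surjective U q
    have h2 : x ∈ H.subgroupOf N ⊔ U := h1 ▸ mem_top x
    obtain ⟨y, hy, u, hu, hxy⟩ := mem_sup_of_normal_right.1 h2
    refine ⟨⟨y, hy⟩, ?_⟩
    rw [MonoidHom.comp_apply, ← hxy, map_mul]
    have h3 : (QuotientGroup.mk' U) u = 1 := (QuotientGroup.eq_one_iff u).2 hu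
    rw [h3, mul_one]
    rfl
  have hinj : Function.Injective (fun y : H.subgroupOf N => (⟨(y : N), y.2⟩ : H)) := by
    intro y z hyz
    have h0 : (⟨((y : N) : G), y.2⟩ : H) = ⟨((z : N) : G), z.2⟩ := hyz
    have : ((y : N) : G) = ((z : N) : G) := Subtype.mk_eq_mk.1 h0
    exact Subtype.ext (Subtype.ext this)
  have hHNf : Finite (H.subgroupOf N) := Finite.of_injective _ hinj
  have h4 : Nat.card (N ⧸ U) ≤ Nat.card (H.subgroupOf N) := Nat.card_le_card_of_surjective _ hsurj
  have h5 : Nat.card (H.subgroupOf N) ≤ Nat.card H := Nat.card_le_card_of_injective _ hinj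
  have h6 : Nat.card (N ⧸ U) = p ^ k := hk
  omega

end Pool.Agent.helper9.TG
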