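import Mathlib

/-!
# Finite groups with an involution with small centralizer
-/

set_option autoImplicit false

namespace Pool.Agent.helper9.TG

open Subgroup

theorem card_le_of_inj {H : Type*} [Group H] [Finite H] [DecidableEq H] (s : Finset H)
    (K : Subgroup H) (f : H → H) (hf : ∀ x ∈ s, f x ∈ K) (hinj : Set.InjOn f s) :
    s.card ≤ Nat.card K := by
  rw [← Finset.card_image_of_injOn hinj, ← Set.ncard_coe_finset]
  have h1 : ((s.image f : Finset H) : Set H) ⊆ (K : Set H) := by
    intro y hy
    rw [Finset.mem_coe, Finset.mem_image] at hy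
    obtain ⟨x, hx, rfl⟩ := hy
    exact hf x hx
  exact Set.ncard_le_ncard h1 (Set.toFinite _)

/-- elements inverted by `a` -/
theorem card_inverted {H : Type*} [Group H] [Fintype H] [DecidableEq H] (a : H) (ha : a * a = 1)
    (c : ℕ) (hc : Nat.card (centralizer {a} : Subgroup H) ≤ c) :
    Fintype.card H ≤ c * (Finset.univ.filter fun x : H => a * x * a = x⁻¹).card := by
  have hai : a⁻¹ = a := inv_eq_of_mul_eq_one_left ha
  have h1 := Finset.card_le_mul_card_image (s := (Finset.univ : Finset H))
    (f := fun h => a * h⁻¹ * a * h) c (by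
      intro y hy
      rw [Finset.mem_image] at hy
      obtain ⟨k, _, rfl⟩ := hy
      refine le_trans ?_ hc
      apply card_le_of_inj _ _ (fun h => h * k⁻¹)
      · intro h hh
        rw [Finset.mem_filter] at hh
        have h2 : h⁻¹ * a * h = k⁻¹ * a * k := by
          have h3 : a * (h⁻¹ * a * h) = a * (k⁻¹ * a * k) := by
            simpa [mul_assoc] using hh.2
          exact mul_left_cancel h3
        rw [mem_centralizer_singleton_iff]
        calc h * k⁻¹ * a = h * (k⁻¹ * a * k) * k⁻¹ := by group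
          _ = h * (h⁻¹ * a * h) * k⁻¹ := by rw [h2]
          _ = a * (h * k⁻¹) := by group
      · intro x _ y _ hxy
        exact mul_right_cancel hxy)
  refine h1.trans (Nat.mul_le_mul_left _ (Finset.card_le_card ?_))
  intro y hy
  rw [Finset.mem_image] at hy
  obtain ⟨h, _, rfl⟩ := hy
  rw [Finset.mem_filter]
  refine ⟨Finset.mem_univ _, ?_⟩
  rw [mul_inv_rev, mul_inv_rev, mul_inv_rev, hai, inv_inv]
  calc a * (a * h⁻¹ * a * h) * a = (a * a) * h⁻¹ * a * h * a := by group
    _ = h⁻¹ * (a * (h * a)) := by rw [ha]; group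

/-- the number of pairs of elements inverted by `a` is at most the number of commuting pairs -/
theorem card_sq_le {H : Type*} [Group H] [Fintype H] [DecidableEq H] (a : H) (ha : a * a = 1) :
    (Finset.univ.filter fun x : H => a * x * a = x⁻¹).card ^ 2 ≤
      ∑ z : H, Nat.card (centralizer {z} : Subgroup H) := by
  set I := Finset.univ.filter fun x : H => a * x * a = x⁻¹ with hI
  have h1 : (I ×ˢ I).card = ∑ z : H, ((I ×ˢ I).filter fun q => q.1 * q.2 = z).card :=
    Finset.card_eq_sum_card_fiberwise (fun _ _ => Finset.mem_coe.2 (Finset.mem_univ _))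
  rw [sq, ← Finset.card_product, h1]
  refine Finset.sum_le_sum fun z _ => ?_
  -- the first coordinate determines the pair
  have h2 : ((I ×ˢ I).filter fun q => q.1 * q.2 = z).card =
      (((I ×ˢ I).filter fun q => q.1 * q.2 = z).image Prod.fst).card := by
    rw [Finset.card_image_of_injOn]
    rintro ⟨x, y⟩ hx ⟨x', y'⟩ hx' hxx
    rw [Finset.mem_coe, Finset.mem_filter] at hx hx'
    have hxx : x = x' := hxx
    subst hxx
    have h3 : x * y = x * y' := hx.2.trans hx'.2.symm
    rw [mul_left_cancel h3]
  rw [h2]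
  have h3 : ∀ x ∈ ((I ×ˢ I).filter fun q => q.1 * q.2 = z).image Prod.fst,
      a * z * a = x⁻¹ * z⁻¹ * x := by
    intro x hx
    rw [Finset.mem_image] at hx
    obtain ⟨⟨x', y⟩, hxy, hxx⟩ := hx
    have hxx : x' = x := hxx
    subst hxx
    rw [Finset.mem_filter, Finset.mem_product, hI, Finset.mem_filter, Finset.mem_filter] at hxy
    obtain ⟨⟨⟨_, h4⟩, ⟨_, h5⟩⟩, h6⟩ := hxy
    have h6 : x' * y = z := h6
    have h4 : a * x' * a = x'⁻¹ := h4
    have h5 : a * y * a = y⁻¹ := h5
    rw [← h6]
    calc a * (x' * y) * a = a * x' * (a * a) * y * a := by rw [ha]; group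
      _ = (a * x' * a) * (a * y * a) := by group
      _ = x'⁻¹ * y⁻¹ := by rw [h4, h5]
      _ = x'⁻¹ * (x' * y)⁻¹ * x' := by group
  rcases (((I ×ˢ I).filter fun q => q.1 * q.2 = z).image Prod.fst).eq_empty_or_nonempty with h | h
  · rw [h]; simp
  · obtain ⟨x₀, hx₀⟩ := h
    apply card_le_of_inj _ _ (fun x => x * x₀⁻¹)
    · intro x hx
      have h4 := (h3 x hx).symm.trans (h3 x₀ hx₀)
      rw [mem_centralizer_singleton_iff]
      have h5 : x * x₀⁻¹ * z⁻¹ = z⁻¹ * (x * x₀⁻¹) := by
        calc x * x₀⁻¹ * z⁻¹ = x * (x₀⁻¹ * z⁻¹ * x₀) * x₀⁻¹ := by group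
          _ = x * (x⁻¹ * z⁻¹ * x) * x₀⁻¹ := by rw [h4]
          _ = z⁻¹ * (x * x₀⁻¹) := by group
      have h6 : Commute (x * x₀⁻¹) z⁻¹ := h5
      exact (Commute.inv_right_iff.1 h6)
    · intro x _ y _ hxy
      exact mul_right_cancel hxy

theorem idx_mul {H : Type*} [Group H] [Finite H] (x y : H) :
    (centralizer {x * y⁻¹} : Subgroup H).index ≤
      (centralizer {x} : Subgroup H).index * (centralizer {y} : Subgroup H).index := by
  refine le_trans ?_ (index_inf_le (H := (centralizer {x} : Subgroup H)) (K := centralizer {y}))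
  have : (centralizer {x} ⊓ centralizer {y} : Subgroup H).FiniteIndex := inferInstance
  apply index_antitone
  intro h hh
  rw [mem_inf, mem_centralizer_singleton_iff, mem_centralizer_singleton_iff] at hh
  rw [mem_centralizer_singleton_iff]
  have h1 : Commute h x := hh.1
  have h2 : Commute h y := hh.2
  exact h1.mul_right h2.inv_right

/-- the main finite lemma -/
theorem exists_small_class {H : Type*} [Group H] [Finite H] (a : H) (ha : a * a = 1)
    (c : ℕ) (hc : Nat.card (centralizer {a} : Subgroup H) ≤ c) (x : Fin (2 * c ^ 2 + 1) → H) :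
    ∃ i j, i ≠ j ∧ (centralizer {(x i)⁻¹ * x j} : Subgroup H).index ≤ (2 * c ^ 2) ^ 2 := by
  classical
  have := Fintype.ofFinite H
  have hc0 : 0 < c := lt_of_lt_of_le Nat.card_pos hc
  set I := Finset.univ.filter fun x : H => a * x * a = x⁻¹ with hI
  have h1 := card_inverted a ha c hc
  have h2 := card_sq_le a ha
  rw [← hI] at h1 h2
  set S := Finset.univ.filter fun z : H => (centralizer {z} : Subgroup H).index ≤ 2 * c ^ 2 with hS
  have hcard : ∀ z : H, Nat.card (centralizer {z} : Subgroup H) * (centralizer {z} : Subgroup H).index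
      = Fintype.card H := by
    intro z
    rw [card_mul_index, Nat.card_eq_fintype_card]
  have h3 : 2 * c ^ 2 * ∑ z : H, Nat.card (centralizer {z} : Subgroup H) ≤
      2 * c ^ 2 * S.card * Fintype.card H + Fintype.card H ^ 2 := by
    have h4 : ∀ z : H, 2 * c ^ 2 * Nat.card (centralizer {z} : Subgroup H) ≤
        (if z ∈ S then 2 * c ^ 2 * Fintype.card H else 0) + Fintype.card H := by
      intro z
      split_ifs with hz
      · have : Nat.card (centralizer {z} : Subgroup H) ≤ Fintype.card H := by
          rw [← Nat.card_eq_fintype_card]; exact card_le_card_group _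
        exact le_trans (Nat.mul_le_mul_left _ this) (Nat.le_add_right _ _)
      · rw [zero_add, ← hcard z]
        rw [hS, Finset.mem_filter, not_and] at hz
        have h5 := hz (Finset.mem_univ _)
        rw [mul_comm]
        exact Nat.mul_le_mul_left _ (by omega)
    rw [Finset.mul_sum]
    refine (Finset.sum_le_sum fun z _ => h4 z).trans ?_
    rw [Finset.sum_add_distrib, Finset.sum_ite_mem, Finset.univ_inter, Finset.sum_const,
      Finset.sum_const, Finset.card_univ, smul_eq_mul, smul_eq_mul, sq]
    apply le_of_eq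
    ring
  have hH : 0 < Fintype.card H := Fintype.card_pos
  have h5 : Fintype.card H ≤ 2 * c ^ 2 * S.card := by
    have h6 : 2 * Fintype.card H ^ 2 ≤ 2 * c ^ 2 * S.card * Fintype.card H + Fintype.card H ^ 2 := by
      calc 2 * Fintype.card H ^ 2 ≤ 2 * (c * I.card) ^ 2 := by gcongr
        _ = 2 * c ^ 2 * I.card ^ 2 := by ring
        _ ≤ 2 * c ^ 2 * ∑ z : H, Nat.card (centralizer {z} : Subgroup H) :=
          Nat.mul_le_mul_left _ h2
        _ ≤ _ := h3
    have h7 : Fintype.card H * Fintype.card H ≤ 2 * c ^ 2 * S.card * Fintype.card H := by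
      rw [← sq]; omega
    exact Nat.le_of_mul_le_mul_right h7 hH
  have hS1 : 0 < S.card := by
    rcases Nat.eq_zero_or_pos S.card with h | h
    · rw [h, mul_zero] at h5; omega
    · exact h
  -- pigeonhole
  have hninj : ¬ Function.Injective (fun q : Fin (2 * c ^ 2 + 1) × S => x q.1 * (q.2 : H)) := by
    intro hinj
    have h8 := Fintype.card_le_of_injective _ hinj
    rw [Fintype.card_prod, Fintype.card_fin, Fintype.card_coe, add_mul, one_mul] at h8
    omega
  rw [Function.not_injective_iff] at hninj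
  obtain ⟨⟨i, s⟩, ⟨j, s'⟩, h8, hne⟩ := hninj
  have h8 : x i * (s : H) = x j * (s' : H) := h8
  refine ⟨i, j, ?_, ?_⟩
  · rintro rfl
    apply hne
    rw [Subtype.ext (mul_left_cancel h8)]
  · have h9 : (x i)⁻¹ * x j = (s : H) * (s' : H)⁻¹ := by
      have : x j = x i * (s : H) * (s' : H)⁻¹ := by rw [h8]; group
      rw [this]; group
    rw [h9]
    refine (idx_mul _ _).trans ?_
    rw [sq]
    exact Nat.mul_le_mul (Finset.mem_filter.1 s.2).2 (Finset.mem_filter.1 s'.2).2

end Pool.Agent.helper9.TG
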