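import Pool.Agent.helper9.TG.A
import Pool.Agent.helper9.TG.B

/-!
# Topologizable two-generated groups with an involution
-/

set_option autoImplicit false

namespace Pool.Agent.helper9.TG

open Subgroup hiding closure
open Filter
open scoped Topology

section
variable {G : Type*} [Group G]

/-- evaluation of words -/
def ev (a b : G) : FreeGroup (Fin 2) →* G := FreeGroup.lift ![a, b]

theorem ev_range (a b : G) : (ev a b).range = Subgroup.closure ({a, b} : Set G) := by
  unfold ev
  rw [FreeGroup.range_lift_eq_closure]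
  congr 1
  ext x
  simp [eq_comm, or_comm]

theorem ev_mem (a b : G) (w : FreeGroup (Fin 2)) : ev a b w ∈ Subgroup.closure ({a, b} : Set G) := by
  rw [← ev_range]; exact ⟨w, rfl⟩

theorem ev_continuous [TopologicalSpace G] [IsTopologicalGroup G] (a b : G)
    (w : FreeGroup (Fin 2)) : Continuous fun g : G => ev a (g⁻¹ * b * g) w := by
  induction w using FreeGroup.induction_on with
  | C1 => simp only [map_one]; exact continuous_const
  | of i =>
    unfold ev
    fin_cases i
    · simp only [FreeGroup.lift_apply_of]; exact continuous_const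
    · simp only [FreeGroup.lift_apply_of]
      show Continuous fun g : G => g⁻¹ * b * g
      fun_prop
  | inv_of i h => simp only [map_inv]; exact h.inv
  | mul x y hx hy => simp only [map_mul]; exact hx.mul hy

/-- the FC-centre -/
def FC (G : Type*) [Group G] : Subgroup G where
  carrier := {x | (centralizer {x} : Subgroup G).FiniteIndex}
  one_mem' := by
    have h : (centralizer {1} : Subgroup G) = ⊤ := by
      rw [eq_top_iff]; intro x _; rw [mem_centralizer_singleton_iff]; simp
    show (centralizer {1} : Subgroup G).FiniteIndex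
    rw [h]; infer_instance
  mul_mem' := by
    intro x y hx hy
    have hx : (centralizer {x} : Subgroup G).FiniteIndex := hx
    have hy : (centralizer {y} : Subgroup G).FiniteIndex := hy
    show (centralizer {x * y} : Subgroup G).FiniteIndex
    have h : (centralizer {x} ⊓ centralizer {y} : Subgroup G).FiniteIndex := inferInstance
    apply Subgroup.finiteIndex_of_le (H := (centralizer {x} ⊓ centralizer {y} : Subgroup G))
    intro z hz
    rw [mem_inf, mem_centralizer_singleton_iff, mem_centralizer_singleton_iff] at hz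
    rw [mem_centralizer_singleton_iff]
    exact (show Commute z x from hz.1).mul_right (show Commute z y from hz.2)
  inv_mem' := by
    intro x hx
    have hx : (centralizer {x} : Subgroup G).FiniteIndex := hx
    show (centralizer {x⁻¹} : Subgroup G).FiniteIndex
    apply Subgroup.finiteIndex_of_le (H := (centralizer {x} : Subgroup G))
    intro z hz
    rw [mem_centralizer_singleton_iff] at hz ⊢
    exact (show Commute z x from hz).inv_right

theorem mem_FC {x : G} : x ∈ FC G ↔ (centralizer {x} : Subgroup G).FiniteIndex := Iff.rfl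

theorem exists_fin_inj (K : Subgroup G) (h : ¬ K.FiniteIndex) (n : ℕ) :
    ∃ x : Fin n → G, ∀ i j, i ≠ j → (x i)⁻¹ * x j ∉ K := by
  have hinf : Infinite (G ⧸ K) := by
    by_contra hn
    have : Finite (G ⧸ K) := not_infinite_iff_finite.1 hn
    exact h finiteIndex_of_finite_quotient
  obtain ⟨f⟩ : Nonempty (Fin n ↪ G ⧸ K) := ⟨(Fin.valEmbedding).trans (Infinite.natEmbedding _)⟩
  refine ⟨fun i => (f i).out, fun i j hij hK => hij (f.injective ?_)⟩
  have h1 : ((f i).out : G ⧸ K) = ((f j).out : G ⧸ K) := QuotientGroup.eq.2 hK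
  rwa [QuotientGroup.out_eq', QuotientGroup.out_eq'] at h1

/-- the FC-centre has finite index -/
theorem FC_finiteIndex (a b : G)
    (ha : a * a = 1) (hgen : Subgroup.closure ({a, b} : Set G) = ⊤)
    (hCa : Finite (centralizer {a} : Subgroup G))
    (hfreq : ∀ S : Finset (FreeGroup (Fin 2)), (∀ w ∈ S, ev a b w ≠ 1) →
      ∃ g : G, Finite (Subgroup.closure ({a, g⁻¹ * b * g} : Set G)) ∧
        ∀ w ∈ S, ev a (g⁻¹ * b * g) w ≠ 1) :
    (FC G).FiniteIndex := by
  by_contra hFC
  set c := Nat.card (centralizer {a} : Subgroup G) with hc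
  obtain ⟨x, hx⟩ := exists_fin_inj (FC G) hFC (2 * c ^ 2 + 1)
  have hw : ∀ i j, ∃ w : Fin ((2 * c ^ 2) ^ 2 + 1) → G, i ≠ j → ∀ l l', l ≠ l' →
      (w l)⁻¹ * w l' ∉ (centralizer {(x i)⁻¹ * x j} : Subgroup G) := by
    intro i j
    by_cases hij : i = j
    · exact ⟨fun _ => 1, fun h => absurd hij h⟩
    · obtain ⟨w, hw⟩ := exists_fin_inj _ (hx i j hij) ((2 * c ^ 2) ^ 2 + 1)
      exact ⟨w, fun _ => hw⟩
  choose w hw using hw
  have hsurj : ∀ y : G, ∃ v : FreeGroup (Fin 2), ev a b v = y := by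
    intro y
    have : y ∈ (ev a b).range := by rw [ev_range, hgen]; exact mem_top y
    exact this
  choose X hX using fun i => hsurj (x i)
  choose W hW using fun i j l => hsurj (w i j l)
  have hev : ∃ g : G, Finite (Subgroup.closure ({a, g⁻¹ * b * g} : Set G)) ∧
      ∀ i j, ∀ l l', i ≠ j → l ≠ l' →
      ev a (g⁻¹ * b * g) (W i j l * ((X i)⁻¹ * X j) * (W i j l)⁻¹ *
        (W i j l' * ((X i)⁻¹ * X j) * (W i j l')⁻¹)⁻¹) ≠ 1 := by
    classical
    have key : ∀ i j l l', i ≠ j → l ≠ l' →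
        ev a b (W i j l * ((X i)⁻¹ * X j) * (W i j l)⁻¹ *
          (W i j l' * ((X i)⁻¹ * X j) * (W i j l')⁻¹)⁻¹) ≠ 1 := by
      intro i j l l' hij hl
      simp only [map_mul, map_inv, hX, hW]
      intro h
      apply hw i j hij l l' hl
      rw [mem_centralizer_singleton_iff]
      have h1 : w i j l * ((x i)⁻¹ * x j) * (w i j l)⁻¹ =
          w i j l' * ((x i)⁻¹ * x j) * (w i j l')⁻¹ := mul_inv_eq_one.1 h
      calc (w i j l)⁻¹ * w i j l' * ((x i)⁻¹ * x j)
          = (w i j l)⁻¹ * (w i j l' * ((x i)⁻¹ * x j) * (w i j l')⁻¹) * w i j l' := by group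
        _ = (w i j l)⁻¹ * (w i j l * ((x i)⁻¹ * x j) * (w i j l)⁻¹) * w i j l' := by rw [h1]
        _ = (x i)⁻¹ * x j * ((w i j l)⁻¹ * w i j l') := by group
    obtain ⟨g, hg, hgw⟩ := hfreq
      ((Finset.univ.filter fun q : (Fin (2 * c ^ 2 + 1) × Fin (2 * c ^ 2 + 1)) ×
          (Fin ((2 * c ^ 2) ^ 2 + 1) × Fin ((2 * c ^ 2) ^ 2 + 1)) =>
            q.1.1 ≠ q.1.2 ∧ q.2.1 ≠ q.2.2).image fun q =>
        W q.1.1 q.1.2 q.2.1 * ((X q.1.1)⁻¹ * X q.1.2) * (W q.1.1 q.1.2 q.2.1)⁻¹ *
          (W q.1.1 q.1.2 q.2.2 * ((X q.1.1)⁻¹ * X q.1.2) * (W q.1.1 q.1.2 q.2.2)⁻¹)⁻¹) (by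
        intro v hv
        obtain ⟨q, hq, rfl⟩ := Finset.mem_image.1 hv
        rw [Finset.mem_filter] at hq
        exact key _ _ _ _ hq.2.1 hq.2.2)
    refine ⟨g, hg, fun i j l l' hij hl => hgw _ ?_⟩
    exact Finset.mem_image.2 ⟨((i, j), (l, l')),
      Finset.mem_filter.2 ⟨Finset.mem_univ _, hij, hl⟩, rfl⟩
  obtain ⟨g, hg, hgw⟩ := hev
  set H := Subgroup.closure ({a, g⁻¹ * b * g} : Set G) with hH
  have haH : a ∈ H := Subgroup.subset_closure (by simp)
  have hcH : Nat.card (centralizer {(⟨a, haH⟩ : H)} : Subgroup H) ≤ c := by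
    rw [hc]
    apply Nat.card_le_card_of_injective
      (fun y : (centralizer {(⟨a, haH⟩ : H)} : Subgroup H) =>
        (⟨((y : H) : G), by
          rw [mem_centralizer_singleton_iff]
          have := mem_centralizer_singleton_iff.1 y.2
          exact congrArg Subtype.val this⟩ : (centralizer {a} : Subgroup G)))
    intro y z hyz
    exact Subtype.ext (Subtype.ext (Subtype.mk_eq_mk.1 hyz))
  obtain ⟨i, j, hij, hidx⟩ := exists_small_class (⟨a, haH⟩ : H) (Subtype.ext ha) c hcH
    (fun i => ⟨ev a (g⁻¹ * b * g) (X i), ev_mem _ _ _⟩)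
  -- the conjugates
  set z : H := (⟨ev a (g⁻¹ * b * g) (X i), ev_mem _ _ _⟩ : H)⁻¹ *
    ⟨ev a (g⁻¹ * b * g) (X j), ev_mem _ _ _⟩ with hz
  have hinj : Function.Injective (fun l : Fin ((2 * c ^ 2) ^ 2 + 1) =>
      (((⟨ev a (g⁻¹ * b * g) (W i j l), ev_mem _ _ _⟩ : H)) : H ⧸ (centralizer {z} : Subgroup H))) := by
    intro l l' hll
    by_contra hne
    apply hgw i j l l' hij hne
    have h1 := QuotientGroup.eq.1 hll
    rw [mem_centralizer_singleton_iff] at h1
    have h2 := congrArg Subtype.val h1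
    simp only [hz, Subgroup.coe_mul, InvMemClass.coe_inv] at h2
    simp only [map_mul, map_inv]
    rw [mul_inv_eq_one]
    set A := ev a (g⁻¹ * b * g) (W i j l)
    set B := ev a (g⁻¹ * b * g) (W i j l')
    set Y := (ev a (g⁻¹ * b * g) (X i))⁻¹ * ev a (g⁻¹ * b * g) (X j)
    have h3 : A⁻¹ * B * Y = Y * (A⁻¹ * B) := h2
    calc A * Y * A⁻¹ = A * (Y * (A⁻¹ * B)) * B⁻¹ := by group
      _ = A * (A⁻¹ * B * Y) * B⁻¹ := by rw [h3]
      _ = B * Y * B⁻¹ := by group
  have h4 := Nat.card_le_card_of_injective _ hinj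
  rw [Nat.card_eq_fintype_card, Fintype.card_fin] at h4
  have h5 : Nat.card (H ⧸ (centralizer {z} : Subgroup H)) = (centralizer {z} : Subgroup H).index := rfl
  omega

end

end Pool.Agent.helper9.TG
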