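import Pool.Agent.helper9.TG.C

/-!
# Virtually abelian groups; the theorem for topologizable groups
-/

set_option autoImplicit false

namespace Pool.Agent.helper9.TG

open Subgroup hiding closure
open Filter
open scoped Topology

/-- an infinite finitely generated abelian group maps onto `ℤ` -/
theorem exists_onto_int (A : Type*) [AddCommGroup A] [AddGroup.FG A] [Infinite A] :
    ∃ f : A →+ ℤ, Function.Surjective f := by
  have hfin : Module.Finite ℤ A := Module.Finite.iff_addGroup_fg.2 inferInstance
  have hfree : Module.Free ℤ (A ⧸ Submodule.torsion ℤ A) := inferInstance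
  have hnt : Nontrivial (A ⧸ Submodule.torsion ℤ A) := by
    rw [Submodule.Quotient.nontrivial_iff]
    intro htop
    have h1 : IsAddTorsion A := by
      rw [isAddTorsion_iff_isTorsion_int]
      intro x
      have hx : x ∈ Submodule.torsion ℤ A := htop ▸ Submodule.mem_top
      exact hx
    exact (AddCommGroup.finite_of_fg_isAddTorsion A h1).not_infinite inferInstance
  set B := Module.Free.chooseBasis ℤ (A ⧸ Submodule.torsion ℤ A)
  obtain ⟨i⟩ : Nonempty (Module.Free.ChooseBasisIndex ℤ (A ⧸ Submodule.torsion ℤ A)) :=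
    B.index_nonempty
  refine ⟨((B.coord i).toAddMonoidHom).comp (Submodule.torsion ℤ A).mkQ.toAddMonoidHom, ?_⟩
  intro n
  obtain ⟨x, hx⟩ := (Submodule.torsion ℤ A).mkQ_surjective (n • B i)
  refine ⟨x, ?_⟩
  show B.coord i ((Submodule.torsion ℤ A).mkQ x) = n
  rw [hx, map_smul]
  simp

section
variable {G : Type*} [Group G]

theorem pLarge_of_abelian [Group.FG G] [Infinite G] (A : Subgroup G) [A.FiniteIndex]
    (hA : ∀ x ∈ A, ∀ y ∈ A, x * y = y * x) : PLarge G := by
  have hfg : Group.FG A := A.fg_of_index_ne_zero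
  have hinf : Infinite A := by
    by_contra hn
    have : Finite A := not_infinite_iff_finite.1 hn
    have h1 : Finite G := by
      apply Nat.finite_of_card_ne_zero
      rw [← A.card_mul_index]
      exact mul_ne_zero Nat.card_pos.ne' FiniteIndex.index_ne_zero
    exact not_finite G
  let _ : CommGroup A := { (inferInstance : Group A) with
    mul_comm := fun x y => Subtype.ext (hA x x.2 y y.2) }
  obtain ⟨f, hf⟩ := exists_onto_int (Additive A)
  refine ⟨2, A, Nat.prime_two, inferInstance, fun m => ?_⟩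
  -- reduction modulo `2 ^ m`
  let φ : A →* Multiplicative (ZMod (2 ^ m)) :=
    MonoidHom.mk' (fun x => Multiplicative.ofAdd ((f (Additive.ofMul x) : ℤ) : ZMod (2 ^ m))) (by
      intro x y
      rw [ofMul_mul, map_add, Int.cast_add, ofAdd_add])
  have hφ : Function.Surjective φ := by
    intro q
    obtain ⟨n, hn⟩ := ZMod.intCast_surjective (Multiplicative.toAdd q)
    obtain ⟨x, hx⟩ := hf n
    refine ⟨Additive.toMul x, ?_⟩
    show Multiplicative.ofAdd ((f x : ℤ) : ZMod (2 ^ m)) = q
    rw [hx, hn]
    rfl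
  refine ⟨φ.ker, inferInstance, m, ?_, ?_⟩
  · rw [Subgroup.index_ker, MonoidHom.range_eq_top.2 hφ, Subgroup.card_top]
    exact Nat.card_zmod _
  · exact Nat.lt_two_pow_self.le

/-- a finitely generated infinite group whose FC-centre has finite index -/
theorem pLarge_of_FC [Group.FG G] [Infinite G] (h : (FC G).FiniteIndex) : PLarge G := by
  have hfg : Group.FG (FC G) := (FC G).fg_of_index_ne_zero
  obtain ⟨s, hs⟩ := hfg.out
  classical
  -- the centralizer of the generators
  have hfi : ∀ t : Finset (FC G), (t.inf fun x => (centralizer {(x : G)} : Subgroup G)).FiniteIndex := by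
    intro t
    induction t using Finset.induction_on with
    | empty => rw [Finset.inf_empty]; infer_instance
    | insert x t _ ih =>
      rw [Finset.inf_insert]
      have h1 : (centralizer {(x : G)} : Subgroup G).FiniteIndex := mem_FC.1 x.2
      infer_instance
  have h1 := hfi s
  have h2 : (FC G ⊓ s.inf fun x => (centralizer {(x : G)} : Subgroup G)).FiniteIndex := inferInstance
  refine pLarge_of_abelian (FC G ⊓ s.inf fun x => (centralizer {(x : G)} : Subgroup G)) ?_
  intro x hx y hy
  rw [mem_inf] at hx hy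
  -- `x` commutes with the generators of the FC-centre
  have h3 : (⊤ : Subgroup (FC G)) ≤ (centralizer {x} : Subgroup G).subgroupOf (FC G) := by
    rw [← hs, Subgroup.closure_le]
    intro z hz
    have h4 : (s.inf fun x => (centralizer {(x : G)} : Subgroup G)) ≤ centralizer {(z : G)} :=
      Finset.inf_le hz
    have h5 := mem_centralizer_singleton_iff.1 (h4 hx.2)
    show (z : G) ∈ (centralizer {x} : Subgroup G)
    rw [mem_centralizer_singleton_iff]
    exact h5.symm
  have h6 : (⟨y, hy.1⟩ : FC G) ∈ (centralizer {x} : Subgroup G).subgroupOf (FC G) := h3 (mem_top _)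
  have h7 : y ∈ (centralizer {x} : Subgroup G) := h6
  exact (mem_centralizer_singleton_iff.1 h7).symm

/-- the generic hypothesis: finitely many inequations satisfied by `(a, b)` hold for infinitely
many pairs `(a, b ^ g)` -/
def Gen (a b : G) : Prop :=
  ∀ S : Finset (FreeGroup (Fin 2)), (∀ w ∈ S, ev a b w ≠ 1) →
    {g : G | ∀ w ∈ S, ev a (g⁻¹ * b * g) w ≠ 1}.Infinite

/-- groups with an involution -/
theorem infinite_of_involution [Infinite G] (a b : G) (hG : Gen a b) (ha : a * a = 1)
    (hgen : Subgroup.closure ({a, b} : Set G) = ⊤) :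
    {g : G | (Subgroup.closure ({a, g⁻¹ * b * g} : Set G) : Set G).Infinite}.Infinite := by
  intro hF
  have hfg : Group.FG G := by
    classical
    exact ⟨⟨{a, b}, by simpa using hgen⟩⟩
  -- the centralizer of `a` is finite
  have hCa : Finite (centralizer {a} : Subgroup G) := by
    have hsub : ((centralizer {a} : Subgroup G) : Set G) ⊆
        {g : G | (Subgroup.closure ({a, g⁻¹ * b * g} : Set G) : Set G).Infinite} := by
      intro x hx
      have hx : x * a = a * x := mem_centralizer_singleton_iff.1 hx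
      have h1 : Subgroup.closure ({a, x⁻¹ * b * x} : Set G) = ⊤ := by
        have h2 : (Subgroup.closure ({a, b} : Set G)).map (MulAut.conj x⁻¹).toMonoidHom =
            Subgroup.closure ({a, x⁻¹ * b * x} : Set G) := by
          rw [MonoidHom.map_closure]
          congr 1
          rw [Set.image_pair]
          have h3 : (MulAut.conj x⁻¹).toMonoidHom a = a := by
            show x⁻¹ * a * x⁻¹⁻¹ = a
            rw [inv_inv, mul_assoc, ← hx]; group
          have h4 : (MulAut.conj x⁻¹).toMonoidHom b = x⁻¹ * b * x := by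
            show x⁻¹ * b * x⁻¹⁻¹ = _
            rw [inv_inv]
          rw [h3, h4]
        rw [← h2, hgen]
        exact Subgroup.map_top_of_surjective _ (MulAut.conj x⁻¹).surjective
      show (Subgroup.closure ({a, x⁻¹ * b * x} : Set G) : Set G).Infinite
      rw [h1]
      exact Set.infinite_univ
    exact (hF.subset hsub).to_subtype
  have hfreq : ∀ S : Finset (FreeGroup (Fin 2)), (∀ w ∈ S, ev a b w ≠ 1) →
      ∃ g : G, Finite (Subgroup.closure ({a, g⁻¹ * b * g} : Set G)) ∧
        ∀ w ∈ S, ev a (g⁻¹ * b * g) w ≠ 1 := by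
    intro S hS
    obtain ⟨g, hg, hgF⟩ := (hG S hS).exists_notMem_finite hF
    refine ⟨g, ?_, hg⟩
    by_contra hn
    exact hgF (Set.infinite_coe_iff.1 (not_finite_iff_infinite.1 hn))
  have hFC := FC_finiteIndex a b ha hgen hCa hfreq
  obtain ⟨M, _, hMf, hM⟩ := infinite_of_pLarge a b hgen (pLarge_of_FC hFC)
  -- `M` is infinite
  have hMinf : (M : Set G).Infinite := by
    intro hn
    have h0 : Finite M := hn.to_subtype
    have h1 : Finite G := by
      apply Nat.finite_of_card_ne_zero
      rw [← M.card_mul_index]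
      exact mul_ne_zero Nat.card_pos.ne' FiniteIndex.index_ne_zero
    exact not_finite G
  exact hMinf (hF.subset fun g hg => hM g hg)

/-- the same with the roles exchanged -/
theorem swap_set (a b : G) :
    {g : G | (Subgroup.closure ({a, g⁻¹ * b * g} : Set G) : Set G).Infinite} =
      (fun g => g⁻¹) ⁻¹' {g : G | (Subgroup.closure ({b, g⁻¹ * a * g} : Set G) : Set G).Infinite} := by
  ext g
  have h2 : (Subgroup.closure ({a, g⁻¹ * b * g} : Set G)).map (MulAut.conj g).toMonoidHom =
      Subgroup.closure ({b, g⁻¹⁻¹ * a * g⁻¹} : Set G) := by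
    rw [MonoidHom.map_closure]
    congr 1
    rw [Set.image_pair, Set.pair_comm]
    have h3 : (MulAut.conj g).toMonoidHom a = g⁻¹⁻¹ * a * g⁻¹ := by
      show g * a * g⁻¹ = _
      rw [inv_inv]
    have h4 : (MulAut.conj g).toMonoidHom (g⁻¹ * b * g) = b := by
      show g * (g⁻¹ * b * g) * g⁻¹ = b
      group
    rw [h3, h4]
  simp only [Set.mem_preimage, Set.mem_ofPred_eq]
  rw [← h2, Subgroup.coe_map]
  exact (Set.infinite_image_iff ((MulAut.conj g).injective.injOn)).symm

/-- exchanging the two letters -/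
def swapW : FreeGroup (Fin 2) →* FreeGroup (Fin 2) :=
  FreeGroup.lift ![FreeGroup.of 1, FreeGroup.of 0]

theorem ev_swapW (a b : G) (w : FreeGroup (Fin 2)) : ev a b (swapW w) = ev b a w := by
  have h : (ev a b).comp swapW = ev b a := by
    ext i
    fin_cases i
    · simp [ev, swapW]
    · simp [ev, swapW]
  exact DFunLike.congr_fun h w

theorem ev_conj (a b g : G) (w : FreeGroup (Fin 2)) :
    ev (g⁻¹ * a * g) (g⁻¹ * b * g) w = g⁻¹ * ev a b w * g := by
  have h : ev (g⁻¹ * a * g) (g⁻¹ * b * g) = (MulAut.conj g⁻¹).toMonoidHom.comp (ev a b) := by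
    ext i
    fin_cases i
    · simp [ev]
    · simp [ev]
  rw [h]
  show g⁻¹ * ev a b w * g⁻¹⁻¹ = _
  rw [inv_inv]

theorem Gen.swap {a b : G} (h : Gen a b) : Gen b a := by
  classical
  intro S hS
  have h1 := h (S.image swapW) (by
    intro v hv
    obtain ⟨w, hw, rfl⟩ := Finset.mem_image.1 hv
    rw [ev_swapW]
    exact hS w hw)
  have h2 : {g : G | ∀ w ∈ S, ev b (g⁻¹ * a * g) w ≠ 1} =
      (fun g => g⁻¹) ⁻¹' {g : G | ∀ w ∈ S.image swapW, ev a (g⁻¹ * b * g) w ≠ 1} := by
    ext g
    simp only [Set.mem_preimage, Set.mem_ofPred_eq, Finset.forall_mem_image, ev_swapW]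
    refine forall₂_congr fun w _ => not_congr ?_
    have h3 := ev_conj (g⁻¹⁻¹ * b * g⁻¹) a g w
    have h4 : g⁻¹ * (g⁻¹⁻¹ * b * g⁻¹) * g = b := by group
    rw [h4] at h3
    rw [h3]
    constructor
    · intro h5
      have : ev (g⁻¹⁻¹ * b * g⁻¹) a w = g * (g⁻¹ * ev (g⁻¹⁻¹ * b * g⁻¹) a w * g) * g⁻¹ := by group
      rw [this, h5]; group
    · intro h5
      rw [h5]; group
  rw [h2]
  exact h1.preimage (fun x _ => ⟨x⁻¹, inv_inv x⟩)

theorem infinite_of_involution' [Infinite G] (a b : G) (hG : Gen a b)
    (hab : a * a = 1 ∨ b * b = 1)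
    (hgen : Subgroup.closure ({a, b} : Set G) = ⊤) :
    {g : G | (Subgroup.closure ({a, g⁻¹ * b * g} : Set G) : Set G).Infinite}.Infinite := by
  rcases hab with h | h
  · exact infinite_of_involution a b hG h hgen
  · rw [swap_set]
    have h1 := infinite_of_involution b a hG.swap h (by rw [Set.pair_comm]; exact hgen)
    exact h1.preimage (fun x _ => ⟨x⁻¹, inv_inv x⟩)

/-- topologizable groups satisfy the hypothesis -/
theorem gen_of_topology [TopologicalSpace G] [IsTopologicalGroup G] [T2Space G]
    (hnd : ¬ DiscreteTopology G) (a b : G) : Gen a b := by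
  intro S hS hfin
  have h1 : {g : G | ∀ w ∈ S, ev a (g⁻¹ * b * g) w ≠ 1} ∈ 𝓝 (1 : G) := by
    have h2 : ∀ w ∈ S, ∀ᶠ g in 𝓝 (1 : G), ev a (g⁻¹ * b * g) w ≠ 1 := by
      intro w hw
      refine (ev_continuous a b w).continuousAt.eventually_ne ?_
      rw [inv_one, one_mul, mul_one]
      exact hS w hw
    exact (Finset.eventually_all S).2 h2
  apply hnd
  rw [discreteTopology_iff_isOpen_singleton_one]
  have h3 : ({1} : Set G) ∈ 𝓝 (1 : G) := by
    have h4 : ({g : G | ∀ w ∈ S, ev a (g⁻¹ * b * g) w ≠ 1} \ {1})ᶜ ∈ 𝓝 (1 : G) := by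
      apply (hfin.subset Set.sdiff_subset).isClosed.isOpen_compl.mem_nhds
      simp
    refine mem_of_superset (inter_mem h1 h4) ?_
    rintro g ⟨hg1, hg2⟩
    by_contra hg3
    exact hg2 ⟨hg1, hg3⟩
  have h5 := mem_nhds_iff.1 h3
  obtain ⟨t, ht, hto, ht1⟩ := h5
  have h6 : t = {1} := Set.Subset.antisymm ht (Set.singleton_subset_iff.2 ht1)
  exact h6 ▸ hto

/-- residually finite groups satisfy the hypothesis -/
theorem gen_of_residuallyFinite [Infinite G] (a b : G)
    (h : ∀ x : G, x ≠ 1 → ∃ N : Subgroup G, N.Normal ∧ N.FiniteIndex ∧ x ∉ N) : Gen a b := by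
  classical
  intro S hS
  have h1 : ∀ S : Finset (FreeGroup (Fin 2)), (∀ w ∈ S, ev a b w ≠ 1) →
      ∃ N : Subgroup G, N.Normal ∧ N.FiniteIndex ∧ ∀ w ∈ S, ev a b w ∉ N := by
    intro S
    induction S using Finset.induction_on with
    | empty => intro _; exact ⟨⊤, inferInstance, inferInstance, by simp⟩
    | insert w S _ ih =>
      intro hS
      obtain ⟨N, hN1, hN2, hN3⟩ := ih fun w hw => hS w (Finset.mem_insert_of_mem hw)
      obtain ⟨N', hN1', hN2', hN3'⟩ := h _ (hS w (Finset.mem_insert_self _ _))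
      refine ⟨N ⊓ N', inferInstance, inferInstance, ?_⟩
      intro v hv
      rcases Finset.mem_insert.1 hv with rfl | hv
      · exact fun h4 => hN3' h4.2
      · exact fun h4 => hN3 v hv h4.1
  obtain ⟨N, hN1, hN2, hN3⟩ := h1 S hS
  have hNinf : (N : Set G).Infinite := by
    intro hn
    have h0 : Finite N := hn.to_subtype
    have h1 : Finite G := by
      apply Nat.finite_of_card_ne_zero
      rw [← N.card_mul_index]
      exact mul_ne_zero Nat.card_pos.ne' FiniteIndex.index_ne_zero
    exact not_finite G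
  refine hNinf.mono ?_
  intro g hg w hw hw1
  apply hN3 w hw
  rw [← QuotientGroup.eq_one_iff (N := N)]
  have h2 : ((QuotientGroup.mk' N).comp (ev a b)) =
      ((QuotientGroup.mk' N).comp (ev a (g⁻¹ * b * g))) := by
    have hg1 : (g : G ⧸ N) = 1 := (QuotientGroup.eq_one_iff g).2 hg
    ext i
    fin_cases i
    · simp [ev]
    · simp [ev, hg1]
  have h3 := DFunLike.congr_fun h2 w
  simp only [MonoidHom.comp_apply, hw1, map_one] at h3
  exact h3

end

end Pool.Agent.helper9.TG
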